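import Mathlib

set_option autoImplicit false

namespace Pool.Agent.H274Z.Modal

/-- Modal formulas: propositional variables, the constants, the Boolean connectives and the box. -/
inductive Formula : Type
  | var (i : ℕ) : Formula
  | top : Formula
  | bot : Formula
  | neg (a : Formula) : Formula
  | box (a : Formula) : Formula
  | and (a b : Formula) : Formula
  | or (a b : Formula) : Formula
  | imp (a b : Formula) : Formula

namespace Formula

/-- The Goedel number of a formula (a bijection between formulas and natural numbers). -/
def code : Formula → ℕ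
  | top => 0
  | bot => 1
  | var i => 6 * i + 2
  | neg a => 6 * a.code + 3
  | box a => 6 * a.code + 4
  | and a b => 6 * Nat.pair a.code b.code + 5
  | or a b => 6 * Nat.pair a.code b.code + 6
  | imp a b => 6 * Nat.pair a.code b.code + 7

/-- The set of propositional variables that occur in a formula. -/
def vars : Formula → Set ℕ
  | var i => {i}
  | top => ∅
  | bot => ∅
  | neg a => a.vars
  | box a => a.vars
  | and a b => a.vars ∪ b.vars
  | or a b => a.vars ∪ b.vars
  | imp a b => a.vars ∪ b.vars

/-- Uniform substitution of the formula `σ i` for the variable number `i`. -/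
def subst (σ : ℕ → Formula) : Formula → Formula
  | var i => σ i
  | top => top
  | bot => bot
  | neg a => neg (a.subst σ)
  | box a => box (a.subst σ)
  | and a b => and (a.subst σ) (b.subst σ)
  | or a b => or (a.subst σ) (b.subst σ)
  | imp a b => imp (a.subst σ) (b.subst σ)

/-- The classical truth value of a formula when the variables and the boxed formulas are given the
truth values `v`. -/
def boolVal (v : Formula → Prop) : Formula → Prop
  | var i => v (var i)
  | top => True
  | bot => False
  | neg a => ¬ a.boolVal v
  | box a => v (box a)
  | and a b => a.boolVal v ∧ b.boolVal v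
  | or a b => a.boolVal v ∨ b.boolVal v
  | imp a b => a.boolVal v → b.boolVal v

end Formula

open Formula

/-- A normal modal logic: it contains all classical tautologies and the axiom K, and is closed
under modus ponens, necessitation and uniform substitution. -/
structure IsNormalLogic (L : Set Formula) : Prop where
  taut : ∀ φ : Formula, (∀ v, φ.boolVal v) → φ ∈ L
  axK : imp (box (imp (var 0) (var 1))) (imp (box (var 0)) (box (var 1))) ∈ L
  mp : ∀ φ ψ : Formula, imp φ ψ ∈ L → φ ∈ L → ψ ∈ L
  nec : ∀ φ : Formula, φ ∈ L → box φ ∈ L
  subst : ∀ (σ : ℕ → Formula) (φ : Formula), φ ∈ L → φ.subst σ ∈ L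

/-- The Loeb axiom. -/
def loebAxiom : Formula := imp (box (imp (box (var 0)) (var 0))) (box (var 0))

/-- GL is the least normal modal logic that contains the Loeb axiom. -/
def logicGL : Set Formula := {φ | ∀ L : Set Formula, IsNormalLogic L → loebAxiom ∈ L → φ ∈ L}

/-- The implication from `φ` to `ψ` has an `L`-interpolant. -/
def HasInterpolant (L : Set Formula) (φ ψ : Formula) : Prop :=
  ∃ χ : Formula, χ.vars ⊆ φ.vars ∩ ψ.vars ∧ imp φ χ ∈ L ∧ imp χ ψ ∈ L

/-- Membership in `L` is decidable (on Goedel numbers). -/
def DecidableLogic (L : Set Formula) : Prop :=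
  ComputablePred fun n : ℕ => ∃ φ : Formula, φ.code = n ∧ φ ∈ L

/-- The interpolant existence problem for `L` is decidable (on pairs of Goedel numbers). -/
def DecidableIEP (L : Set Formula) : Prop :=
  ComputablePred fun n : ℕ × ℕ =>
    ∃ φ ψ : Formula, φ.code = n.1 ∧ ψ.code = n.2 ∧ HasInterpolant L φ ψ

end Pool.Agent.H274Z.Modal
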