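import Mathlib
import Pool.Agent.H274Z.Modal.Defs

set_option autoImplicit false

namespace Pool.Agent.H274Z.Modal

open Formula

/-- Kripke semantics on the frame whose world `x` sees the worlds `y < b x`. -/
def sat (b : ℕ → ℕ) (V : ℕ → ℕ → Prop) : Formula → ℕ → Prop
  | .var i, w => V i w
  | .top, _ => True
  | .bot, _ => False
  | .neg a, w => ¬ sat b V a w
  | .box a, w => ∀ y, y < b w → sat b V a y
  | .and a c, w => sat b V a w ∧ sat b V c w
  | .or a c, w => sat b V a w ∨ sat b V c w
  | .imp a c, w => sat b V a w → sat b V c w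

/-- The frame `F(j,m)`. -/
def fr (j m : ℕ) (x : ℕ) : ℕ := if x = m + 1 then j else x

/-- the machine number `n` has not halted within `t` steps -/
def Running (n t : ℕ) : Prop :=
  Nat.Partrec.Code.evaln t (Denumerable.ofNat Nat.Partrec.Code n) 0 = none

/-- the class of frames -/
def Cls (j t : ℕ) : Prop := Running (j / 2) t ∨ t ≤ j / 2

/-- validity in the frame `F(j,m)` -/
def Valid (j m : ℕ) (φ : Formula) : Prop := ∀ V w, w ≤ m + 2 → sat (fr j m) V φ w

/-- the logic -/
def theLogic : Set Formula := {φ | ∀ j t, Cls j t → Valid j (j + 2 * t) φ}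

lemma fr_le {j m : ℕ} (h : j ≤ m) (x : ℕ) : fr j m x ≤ x := by
  unfold fr; split_ifs <;> omega

lemma sat_boolVal (b : ℕ → ℕ) (V : ℕ → ℕ → Prop) (w : ℕ) (φ : Formula) :
    φ.boolVal (fun ψ => sat b V ψ w) ↔ sat b V φ w := by
  induction φ with
  | var i => rfl
  | top => rfl
  | bot => rfl
  | neg a ih => simp only [boolVal, sat, ih]
  | box a ih => rfl
  | and a c iha ihc => simp only [boolVal, sat, iha, ihc]
  | or a c iha ihc => simp only [boolVal, sat, iha, ihc]
  | imp a c iha ihc => simp only [boolVal, sat, iha, ihc]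

lemma sat_subst (b : ℕ → ℕ) (V : ℕ → ℕ → Prop) (σ : ℕ → Formula) (φ : Formula) :
    ∀ w, sat b V (φ.subst σ) w ↔ sat b (fun p y => sat b V (σ p) y) φ w := by
  induction φ with
  | var i => intro w; rfl
  | top => intro w; rfl
  | bot => intro w; rfl
  | neg a ih => intro w; simp only [subst, sat, ih]
  | box a ih => intro w; simp only [subst, sat, ih]
  | and a c iha ihc => intro w; simp only [subst, sat, iha, ihc]
  | or a c iha ihc => intro w; simp only [subst, sat, iha, ihc]
  | imp a c iha ihc => intro w; simp only [subst, sat, iha, ihc]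

theorem theLogic_normal : IsNormalLogic theLogic where
  taut := fun φ h j t _ V w _ => (sat_boolVal _ V w φ).1 (h _)
  axK := by
    intro j t _ V w _
    simp only [sat]
    intro h1 h2 y hy
    exact h1 y hy (h2 y hy)
  mp := fun φ ψ h1 h2 j t hc V w hw => h1 j t hc V w hw (h2 j t hc V w hw)
  nec := by
    intro φ h j t hc V w hw y hy
    have := fr_le (j := j) (m := j + 2 * t) (by omega) w
    exact h j t hc V y (by omega)
  subst := fun σ φ h j t hc V w hw => (sat_subst _ V σ φ w).2 (h j t hc _ w hw)

theorem theLogic_loeb : loebAxiom ∈ theLogic := by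
  intro j t _ V w _
  simp only [loebAxiom, sat]
  intro h y
  induction y using Nat.strong_induction_on with
  | _ y ih =>
    intro hy
    apply h y hy
    intro z hz
    have := fr_le (j := j) (m := j + 2 * t) (by omega) y
    exact ih z (by omega) (by omega)

/-! ### Removing a point -/

/-- the point `i` is not the first refuter of a boxed subformula -/
def Good (b : ℕ → ℕ) (V : ℕ → ℕ → Prop) (i : ℕ) : Formula → Prop
  | .var _ => True
  | .top => True
  | .bot => True
  | .neg a => Good b V i a
  | .box a => Good b V i a ∧ ((∀ z, z < i → sat b V a z) → sat b V a i)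
  | .and a c => Good b V i a ∧ Good b V i c
  | .or a c => Good b V i a ∧ Good b V i c
  | .imp a c => Good b V i a ∧ Good b V i c

lemma add_le_six_pair (a c : ℕ) : a + c ≤ 6 * Nat.pair a c := by
  have h1 := Nat.left_le_pair a c
  have h2 := Nat.right_le_pair a c
  omega

lemma exists_bad (b : ℕ → ℕ) (V : ℕ → ℕ → Prop) (φ : Formula) :
    ∃ S : Finset ℕ, S.card ≤ φ.code ∧ ∀ i, i ∉ S → Good b V i φ := by
  classical
  have two : ∀ a c : Formula, (∃ S : Finset ℕ, S.card ≤ a.code ∧ ∀ i, i ∉ S → Good b V i a) →
      (∃ S : Finset ℕ, S.card ≤ c.code ∧ ∀ i, i ∉ S → Good b V i c) →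
      ∃ S : Finset ℕ, S.card ≤ 6 * Nat.pair a.code c.code ∧
        ∀ i, i ∉ S → Good b V i a ∧ Good b V i c := by
    rintro a c ⟨S, hS, hS'⟩ ⟨T, hT, hT'⟩
    refine ⟨S ∪ T, ?_, fun i hi => ?_⟩
    · have := Finset.card_union_le S T
      have := add_le_six_pair a.code c.code
      omega
    · rw [Finset.mem_union, not_or] at hi
      exact ⟨hS' i hi.1, hT' i hi.2⟩
  induction φ with
  | var i => exact ⟨∅, by simp, fun _ _ => trivial⟩
  | top => exact ⟨∅, by simp, fun _ _ => trivial⟩
  | bot => exact ⟨∅, by simp, fun _ _ => trivial⟩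
  | neg a ih =>
    obtain ⟨S, hS, hS'⟩ := ih
    exact ⟨S, by simp only [code]; omega, hS'⟩
  | box a ih =>
    obtain ⟨S, hS, hS'⟩ := ih
    by_cases h : ∃ z, ¬ sat b V a z
    · refine ⟨insert (Nat.find h) S, ?_, fun i hi => ?_⟩
      · have := Finset.card_insert_le (Nat.find h) S
        simp only [code]; omega
      · rw [Finset.mem_insert, not_or] at hi
        refine ⟨hS' i hi.2, fun hz => ?_⟩
        by_contra hc
        have h1 : Nat.find h ≤ i := Nat.find_min' h hc
        have h2 := Nat.find_spec h
        exact h2 (hz _ (lt_of_le_of_ne h1 (Ne.symm hi.1)))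
    · push Not at h
      exact ⟨S, by simp only [code]; omega, fun i hi => ⟨hS' i hi, fun _ => h i⟩⟩
  | and a c iha ihc =>
    obtain ⟨S, hS, hS'⟩ := two a c iha ihc
    exact ⟨S, by simp only [code]; omega, hS'⟩
  | or a c iha ihc =>
    obtain ⟨S, hS, hS'⟩ := two a c iha ihc
    exact ⟨S, by simp only [code]; omega, hS'⟩
  | imp a c iha ihc =>
    obtain ⟨S, hS, hS'⟩ := two a c iha ihc
    exact ⟨S, by simp only [code]; omega, hS'⟩

/-- skip the point `i` -/
def skip (i x : ℕ) : ℕ := if x < i then x else x + 1

lemma sat_remove (b b' : ℕ → ℕ) (V : ℕ → ℕ → Prop) (i : ℕ)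
    (hb : ∀ x y, y < b' x ↔ skip i y < b (skip i x)) (φ : Formula) (hg : Good b V i φ) :
    ∀ x, sat b' (fun p y => V p (skip i y)) φ x ↔ sat b V φ (skip i x) := by
  induction φ with
  | var i => intro w; rfl
  | top => intro w; rfl
  | bot => intro w; rfl
  | neg a ih => intro w; simp only [sat, ih hg]
  | box a ih =>
    intro w
    simp only [sat, ih hg.1, hb]
    constructor
    · intro h z hz
      have low : ∀ z, z < i → z < b (skip i w) → sat b V a z := by
        intro z hzi hz
        have e : skip i z = z := by unfold skip; simp [hzi]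
        have := h z (by rw [e]; exact hz)
        rwa [e] at this
      rcases lt_trichotomy z i with hzi | hzi | hzi
      · exact low z hzi hz
      · subst hzi
        exact hg.2 (fun u hu => low u hu (by omega))
      · have e : skip i (z - 1) = z := by unfold skip; split_ifs <;> omega
        have := h (z - 1) (by rw [e]; exact hz)
        rwa [e] at this
    · intro h y hy
      exact h _ hy
  | and a c iha ihc => intro w; simp only [sat, iha hg.1, ihc hg.2]
  | or a c iha ihc => intro w; simp only [sat, iha hg.1, ihc hg.2]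
  | imp a c iha ihc => intro w; simp only [sat, iha hg.1, ihc hg.2]

lemma exists_free (S : Finset ℕ) (w lo n : ℕ) (h : S.card + 1 < n) :
    ∃ i, lo ≤ i ∧ i < lo + n ∧ i ∉ S ∧ i ≠ w := by
  classical
  have h1 : (insert w S).card < (Finset.Ico lo (lo + n)).card := by
    have := Finset.card_insert_le w S
    simp only [Nat.card_Ico]; omega
  obtain ⟨i, hi, hi'⟩ := Finset.exists_mem_notMem_of_card_lt_card h1
  rw [Finset.mem_insert, not_or] at hi'
  rw [Finset.mem_Ico] at hi
  exact ⟨i, hi.1, hi.2, hi'.2, hi'.1⟩

lemma valid_up (φ : Formula) (j m : ℕ) (h : j + φ.code + 1 ≤ m) (hv : Valid j m φ) :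
    Valid j (m + 1) φ := by
  intro V w hw
  obtain ⟨S, hS, hS'⟩ := exists_bad (fr j (m + 1)) V φ
  obtain ⟨i, hi1, hi2, hi3, hi4⟩ := exists_free S w j (φ.code + 2) (by omega)
  have key := sat_remove (fr j (m + 1)) (fr j m) V i (by
    intro x y; unfold fr skip; split_ifs <;> omega) φ (hS' i hi3)
  have e : skip i (if w < i then w else w - 1) = w := by unfold skip; split_ifs <;> omega
  rw [← e, ← key]
  apply hv
  split_ifs <;> omega

lemma valid_low (φ : Formula) (j m : ℕ) (h : φ.code + 1 ≤ j) (hjm : j ≤ m) (hv : Valid j m φ) :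
    Valid (j + 1) (m + 1) φ := by
  intro V w hw
  obtain ⟨S, hS, hS'⟩ := exists_bad (fr (j + 1) (m + 1)) V φ
  obtain ⟨i, hi1, hi2, hi3, hi4⟩ := exists_free S w 0 (φ.code + 2) (by omega)
  have key := sat_remove (fr (j + 1) (m + 1)) (fr j m) V i (by
    intro x y; unfold fr skip; split_ifs <;> omega) φ (hS' i hi3)
  have e : skip i (if w < i then w else w - 1) = w := by unfold skip; split_ifs <;> omega
  rw [← e, ← key]
  apply hv
  split_ifs <;> omega

lemma running_mono {n t s : ℕ} (h : s ≤ t) (hr : Running n t) : Running n s := by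
  unfold Running at *
  cases hs : Nat.Partrec.Code.evaln s (Denumerable.ofNat Nat.Partrec.Code n) 0 with
  | none => rfl
  | some x =>
    have := Nat.Partrec.Code.evaln_mono h (Option.mem_def.2 hs)
    rw [hr] at this
    simp at this

/-- the small model property -/
theorem mem_theLogic_iff (φ : Formula) : φ ∈ theLogic ↔
    ∀ j, j < 2 * φ.code + 6 → ∀ t, t < φ.code + 2 → Cls j t → Valid j (j + 2 * t) φ := by
  refine ⟨fun h j _ t _ hc => h j t hc, fun h => ?_⟩
  have main : ∀ s j t, j + t = s → Cls j t → Valid j (j + 2 * t) φ := by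
    intro s
    induction s using Nat.strong_induction_on with
    | _ s ih =>
      intro j t hs hc
      by_cases ht : t < φ.code + 2
      · by_cases hj : j < 2 * φ.code + 6
        · exact h j hj t ht hc
        · obtain ⟨j', rfl⟩ : ∃ j', j = j' + 1 := ⟨j - 1, by omega⟩
          have := ih (j' + t) (by omega) j' t rfl (Or.inr (by omega))
          have := valid_low φ j' (j' + 2 * t) (by omega) (by omega) this
          convert this using 1
          omega
      · obtain ⟨t', rfl⟩ : ∃ t', t = t' + 1 := ⟨t - 1, by omega⟩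
        have hc' : Cls j t' := by
          rcases hc with hc | hc
          · exact Or.inl (running_mono (by omega) hc)
          · exact Or.inr (by omega)
        have h1 := ih (j + t') (by omega) j t' rfl hc'
        have h2 := valid_up φ j (j + 2 * t') (by omega) h1
        have h3 := valid_up φ j (j + 2 * t' + 1) (by omega) h2
        convert h3 using 1
        omega
  intro j t hc
  exact main _ j t rfl hc

end Pool.Agent.H274Z.Modal
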