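import Mathlib
import Pool.Agent.H274Z.Modal.Sem

set_option autoImplicit false

namespace Pool.Agent.H274Z.Modal

open Formula

/-- iterated box of falsum -/
def boxes : ℕ → Formula
  | 0 => .bot
  | k + 1 => .box (boxes k)

/-- depth exactly `k` -/
def depthF (k : ℕ) : Formula := .and (boxes (k + 1)) (.neg (boxes k))

/-- diamond -/
def dia (a : Formula) : Formula := .neg (.box (.neg a))

/-- two different visible points of depth `k` -/
def two (k p : ℕ) : Formula :=
  .and (dia (.and (depthF k) (.var p))) (dia (.and (depthF k) (.neg (.var p))))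

def phiF (n : ℕ) : Formula := two (2 * n) 0

def psiF (n : ℕ) : Formula := .neg (two (2 * n + 1) 1)

/-- the depth of a world of `F(j,m)` -/
def dep (j m w : ℕ) : ℕ := if w ≤ m then w else if w = m + 1 then j else m + 1

/-- truth of a variable free formula at depth `k` -/
def chain (χ : Formula) (k : ℕ) : Prop := sat id (fun _ _ => False) χ k

lemma sat_free {j m : ℕ} (hjm : j ≤ m) (V : ℕ → ℕ → Prop) (χ : Formula) (h : χ.vars = ∅) :
    ∀ w, w ≤ m + 2 → (sat (fr j m) V χ w ↔ chain χ (dep j m w)) := by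
  unfold chain
  induction χ with
  | var i => simp [vars] at h
  | top => intro w _; rfl
  | bot => intro w _; rfl
  | neg a ih => intro w hw; simp only [sat, ih h w hw]
  | box a ih =>
    intro w hw
    simp only [sat, id]
    constructor
    · intro H y hy
      have hy' : y ≤ m := by unfold dep at hy; split_ifs at hy <;> omega
      have h1 : y < fr j m w := by
        unfold dep at hy; unfold fr; split_ifs at hy <;> split_ifs <;> omega
      have := (ih h y (by omega)).1 (H y h1)
      rwa [show dep j m y = y by unfold dep; simp [hy']] at this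
    · intro H y hy
      have h0 := fr_le hjm w
      rw [ih h y (by omega)]
      apply H
      unfold fr at hy; unfold dep; split_ifs at hy <;> split_ifs <;> omega
  | and a c iha ihc =>
    intro w hw
    simp only [vars, Set.union_empty_iff] at h
    simp only [sat, iha h.1 w hw, ihc h.2 w hw]
  | or a c iha ihc =>
    intro w hw
    simp only [vars, Set.union_empty_iff] at h
    simp only [sat, iha h.1 w hw, ihc h.2 w hw]
  | imp a c iha ihc =>
    intro w hw
    simp only [vars, Set.union_empty_iff] at h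
    simp only [sat, iha h.1 w hw, ihc h.2 w hw]

lemma chain_const (χ : Formula) : ∃ K, ∀ k, K ≤ k → (chain χ k ↔ chain χ K) := by
  unfold chain
  have two : ∀ a c : Formula, (∃ K, ∀ k, K ≤ k → (chain a k ↔ chain a K)) →
      (∃ K, ∀ k, K ≤ k → (chain c k ↔ chain c K)) →
      ∃ K, ∀ k, K ≤ k → (chain a k ↔ chain a K) ∧ (chain c k ↔ chain c K) := by
    rintro a c ⟨K, hK⟩ ⟨M, hM⟩
    refine ⟨max K M, fun k hk => ⟨?_, ?_⟩⟩
    · rw [hK k (le_trans (le_max_left _ _) hk), hK _ (le_max_left _ _)]
    · rw [hM k (le_trans (le_max_right _ _) hk), hM _ (le_max_right _ _)]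
  induction χ with
  | var i => exact ⟨0, fun _ _ => Iff.rfl⟩
  | top => exact ⟨0, fun _ _ => Iff.rfl⟩
  | bot => exact ⟨0, fun _ _ => Iff.rfl⟩
  | neg a ih =>
    obtain ⟨K, hK⟩ := ih
    exact ⟨K, fun k hk => by simp only [sat, hK k hk]⟩
  | box a ih =>
    by_cases h : ∃ z, ¬ sat id (fun _ _ => False) a z
    · obtain ⟨z, hz⟩ := h
      refine ⟨z + 1, fun k hk => ?_⟩
      simp only [sat, id]
      exact ⟨fun H => absurd (H z (by omega)) hz, fun H => absurd (H z (by omega)) hz⟩
    · push Not at h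
      exact ⟨0, fun k _ => ⟨fun _ y _ => h y, fun _ y _ => h y⟩⟩
  | and a c iha ihc =>
    obtain ⟨K, hK⟩ := two a c iha ihc
    refine ⟨K, fun k hk => ?_⟩
    have := hK k hk
    unfold chain at this
    simp only [sat, this.1, this.2]
  | or a c iha ihc =>
    obtain ⟨K, hK⟩ := two a c iha ihc
    refine ⟨K, fun k hk => ?_⟩
    have := hK k hk
    unfold chain at this
    simp only [sat, this.1, this.2]
  | imp a c iha ihc =>
    obtain ⟨K, hK⟩ := two a c iha ihc
    refine ⟨K, fun k hk => ?_⟩
    have := hK k hk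
    unfold chain at this
    simp only [sat, this.1, this.2]

lemma vars_boxes (k : ℕ) : (boxes k).vars = ∅ := by
  induction k with
  | zero => rfl
  | succ k ih => exact ih

lemma chain_boxes (k : ℕ) : ∀ x, chain (boxes k) x ↔ x < k := by
  unfold chain
  induction k with
  | zero => intro x; simp [boxes, sat]
  | succ k ih =>
    intro x
    simp only [boxes, sat, ih, id]
    constructor
    · intro h
      by_contra hc
      have := h k (by omega)
      omega
    · intro h y hy; omega

lemma vars_depthF (k : ℕ) : (depthF k).vars = ∅ := by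
  simp [depthF, vars, vars_boxes]

lemma chain_depthF (k x : ℕ) : chain (depthF k) x ↔ x = k := by
  have h1 := chain_boxes (k + 1) x
  have h2 := chain_boxes k x
  unfold chain at *
  simp only [depthF, sat, h1, h2]
  omega

lemma vars_two (k p : ℕ) : (two k p).vars = {p} := by
  simp [two, dia, vars, vars_depthF]

lemma sat_two_iff {j m : ℕ} (hjm : j ≤ m) (V : ℕ → ℕ → Prop) (k p w : ℕ) (hw : w ≤ m + 2) :
    sat (fr j m) V (two k p) w ↔
      (∃ y, y < fr j m w ∧ dep j m y = k ∧ V p y) ∧
        (∃ y, y < fr j m w ∧ dep j m y = k ∧ ¬ V p y) := by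
  have h0 := fr_le hjm w
  have hd : ∀ y, y < fr j m w → (sat (fr j m) V (depthF k) y ↔ dep j m y = k) := by
    intro y hy
    rw [sat_free hjm V _ (vars_depthF k) y (by omega), chain_depthF]
  simp only [two, dia, sat]
  constructor
  · rintro ⟨h1, h2⟩
    push Not at h1 h2
    obtain ⟨y, hy, hy1, hy2⟩ := h1
    obtain ⟨z, hz, hz1, hz2⟩ := h2
    exact ⟨⟨y, hy, (hd y hy).1 hy1, hy2⟩, ⟨z, hz, (hd z hz).1 hz1, hz2⟩⟩
  · rintro ⟨⟨y, hy, hy1, hy2⟩, ⟨z, hz, hz1, hz2⟩⟩
    exact ⟨fun H => H y hy ⟨(hd y hy).2 hy1, hy2⟩, fun H => H z hz ⟨(hd z hz).2 hz1, hz2⟩⟩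

lemma of_sat_two {j m : ℕ} (hjm : j ≤ m) (V : ℕ → ℕ → Prop) (k p w : ℕ) (hw : w ≤ m + 2)
    (h : sat (fr j m) V (two k p) w) : j = k ∧ dep j m w = m + 1 := by
  rw [sat_two_iff hjm V k p w hw] at h
  obtain ⟨⟨y, hy, hy1, hy2⟩, ⟨z, hz, hz1, hz2⟩⟩ := h
  have hne : y ≠ z := by rintro rfl; exact hz2 hy2
  unfold dep at *
  unfold fr at *
  split_ifs at * <;> omega

lemma sat_two_root {j m : ℕ} (hjm : j ≤ m) (p : ℕ) :
    sat (fr j m) (fun _ y => y = j) (two j p) (m + 2) := by
  rw [sat_two_iff hjm _ j p _ le_rfl]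
  refine ⟨⟨j, ?_, ?_, rfl⟩, ⟨m + 1, ?_, ?_, ?_⟩⟩
  · unfold fr; split_ifs <;> omega
  · unfold dep; simp [hjm]
  · unfold fr; split_ifs <;> omega
  · unfold dep; simp
  · omega

lemma exists_odd (K : ℕ) : ∃ χ : Formula, χ.vars = ∅ ∧ ∀ k, chain χ k ↔ (k % 2 = 1 ∧ k < K) := by
  induction K with
  | zero => exact ⟨.bot, rfl, fun k => by simp [chain, sat]⟩
  | succ K ih =>
    obtain ⟨χ, h1, h2⟩ := ih
    by_cases hK : K % 2 = 1
    · refine ⟨.or χ (depthF K), by simp [vars, h1, vars_depthF], fun k => ?_⟩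
      have h3 := h2 k
      have h4 := chain_depthF K k
      unfold chain at *
      simp only [sat, h3, h4]
      omega
    · refine ⟨χ, h1, fun k => ?_⟩
      rw [h2 k]
      omega

theorem hasInterpolant_iff (n : ℕ) :
    HasInterpolant theLogic (phiF n) (psiF n) ↔ ∃ t, ¬ Running n t := by
  constructor
  · rintro ⟨χ, hv, h1, h2⟩
    by_contra hc
    push Not at hc
    have hv' : χ.vars = ∅ := by
      have : (phiF n).vars ∩ (psiF n).vars = ∅ := by
        simp [phiF, psiF, vars, vars_two]
      rw [this] at hv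
      exact Set.subset_empty_iff.1 hv
    obtain ⟨K, hK⟩ := chain_const χ
    have c1 : Cls (2 * n) K := Or.inl (by rw [show 2 * n / 2 = n by omega]; exact hc K)
    have c2 : Cls (2 * n + 1) K := Or.inl (by rw [show (2 * n + 1) / 2 = n by omega]; exact hc K)
    have a1 := h1 _ _ c1 _ _ le_rfl (sat_two_root (by omega) 0)
    have a2 : ¬ sat (fr (2 * n + 1) (2 * n + 1 + 2 * K)) (fun _ y => y = 2 * n + 1) χ
        (2 * n + 1 + 2 * K + 2) := fun H =>
      h2 _ _ c2 _ _ le_rfl H (sat_two_root (by omega) 1)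
    rw [sat_free (by omega) _ χ hv' _ le_rfl] at a1 a2
    rw [hK _ (by unfold dep; split_ifs <;> omega)] at a1 a2
    exact a2 a1
  · rintro ⟨T, hT⟩
    obtain ⟨χ, h1, h2⟩ := exists_odd (2 * n + 2 * (T + n) + 2)
    refine ⟨χ, by rw [h1]; exact Set.empty_subset _, ?_, ?_⟩
    · intro j t hc V w hw H
      obtain ⟨hj, hd⟩ := of_sat_two (by omega) V _ _ w hw H
      rw [sat_free (by omega) V χ h1 w hw, hd, h2]
      subst hj
      have : t ≤ T + n := by
        rcases hc with hc | hc
        · rw [show 2 * n / 2 = n by omega] at hc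
          by_contra hlt
          exact hT (running_mono (by omega) hc)
        · omega
      omega
    · intro j t _ V w hw H H'
      obtain ⟨hj, hd⟩ := of_sat_two (by omega) V _ _ w hw H'
      rw [sat_free (by omega) V χ h1 w hw, hd, h2] at H
      omega

end Pool.Agent.H274Z.Modal
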