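import Mathlib
import Pool.Agent.H274Z.Modal.Interp

set_option autoImplicit false

namespace Pool.Agent.H274Z.Modal

open Formula

lemma code_injective : ∀ φ ψ : Formula, φ.code = ψ.code → φ = ψ := by
  intro φ
  induction φ with
  | var i => intro ψ h; cases ψ <;> simp only [code] at h <;> first | omega | (congr 1; omega)
  | top => intro ψ h; cases ψ <;> simp only [code] at h <;> first | rfl | omega
  | bot => intro ψ h; cases ψ <;> simp only [code] at h <;> first | rfl | omega
  | neg a ih =>
    intro ψ h
    cases ψ <;> simp only [code] at h <;> first | omega | (congr 1; exact ih _ (by omega))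
  | box a ih =>
    intro ψ h
    cases ψ <;> simp only [code] at h <;> first | omega | (congr 1; exact ih _ (by omega))
  | and a c iha ihc =>
    intro ψ h
    cases ψ with
    | and a' c' =>
      simp only [code] at h
      have := Nat.pair_eq_pair.1 (show Nat.pair a.code c.code = Nat.pair a'.code c'.code by omega)
      rw [iha _ this.1, ihc _ this.2]
    | _ => simp only [code] at h; omega
  | or a c iha ihc =>
    intro ψ h
    cases ψ with
    | or a' c' =>
      simp only [code] at h
      have := Nat.pair_eq_pair.1 (show Nat.pair a.code c.code = Nat.pair a'.code c'.code by omega)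
      rw [iha _ this.1, ihc _ this.2]
    | _ => simp only [code] at h; omega
  | imp a c iha ihc =>
    intro ψ h
    cases ψ with
    | imp a' c' =>
      simp only [code] at h
      have := Nat.pair_eq_pair.1 (show Nat.pair a.code c.code = Nat.pair a'.code c'.code by omega)
      rw [iha _ this.1, ihc _ this.2]
    | _ => simp only [code] at h; omega

lemma code_surjective (n : ℕ) : ∃ φ : Formula, φ.code = n := by
  induction n using Nat.strong_induction_on with
  | _ n ih =>
    by_cases h0 : n = 0
    · exact ⟨.top, h0.symm⟩
    by_cases h1 : n = 1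
    · exact ⟨.bot, h1.symm⟩
    set q := (n - 2) / 6 with hq
    have l1 := Nat.unpair_left_le q
    have l2 := Nat.unpair_right_le q
    obtain ⟨a, ha⟩ := ih q (by omega)
    obtain ⟨b, hb⟩ := ih q.unpair.1 (by omega)
    obtain ⟨c, hc⟩ := ih q.unpair.2 (by omega)
    have hp : Nat.pair b.code c.code = q := by rw [hb, hc, Nat.pair_unpair]
    have : (n - 2) % 6 = 0 ∨ (n - 2) % 6 = 1 ∨ (n - 2) % 6 = 2 ∨ (n - 2) % 6 = 3 ∨
      (n - 2) % 6 = 4 ∨ (n - 2) % 6 = 5 := by omega
    rcases this with h | h | h | h | h | h
    · exact ⟨.var q, by simp only [code]; omega⟩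
    · exact ⟨.neg a, by simp only [code]; omega⟩
    · exact ⟨.box a, by simp only [code]; omega⟩
    · exact ⟨.and b c, by simp only [code]; omega⟩
    · exact ⟨.or b c, by simp only [code]; omega⟩
    · exact ⟨.imp b c, by simp only [code]; omega⟩

noncomputable def decode (n : ℕ) : Formula := Classical.choose (code_surjective n)

lemma code_decode (n : ℕ) : (decode n).code = n := Classical.choose_spec (code_surjective n)

lemma decode_code (φ : Formula) : decode φ.code = φ := code_injective _ _ (code_decode _)

/-- bit number `k` of `v` -/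
def Bit (v k : ℕ) : Prop := v / 2 ^ k % 2 = 1

lemma exists_bits (K : ℕ) : ∀ P : ℕ → Prop, ∃ v, v < 2 ^ K ∧ ∀ k, k < K → (Bit v k ↔ P k) := by
  classical
  induction K with
  | zero => intro P; exact ⟨0, by simp, fun k hk => absurd hk (by omega)⟩
  | succ K ih =>
    intro P
    obtain ⟨v, hv, hv'⟩ := ih (fun k => P (k + 1))
    refine ⟨2 * v + (if P 0 then 1 else 0), ?_, fun k hk => ?_⟩
    · rw [pow_succ]; split_ifs <;> omega
    · cases k with
      | zero =>
        unfold Bit
        simp only [pow_zero, Nat.div_one]
        split_ifs with h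
        · simp only [h, iff_true]; omega
        · simp only [h, iff_false]; omega
      | succ k =>
        rw [← hv' k (by omega)]
        unfold Bit
        have : (2 * v + (if P 0 then 1 else 0)) / 2 ^ (k + 1) = v / 2 ^ k := by
          rw [pow_succ', ← Nat.div_div_eq_div_mul]
          congr 1
          split_ifs <;> omega
        rw [this]

lemma sat_congr {j m : ℕ} (hjm : j ≤ m) (V V' : ℕ → ℕ → Prop) (N : ℕ)
    (h : ∀ p y, p ≤ N → y ≤ m + 2 → (V p y ↔ V' p y)) (φ : Formula) (hφ : φ.code ≤ N) :
    ∀ w, w ≤ m + 2 → (sat (fr j m) V φ w ↔ sat (fr j m) V' φ w) := by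
  induction φ with
  | var i => intro w hw; simp only [code] at hφ; exact h i w (by omega) hw
  | top => intro w _; rfl
  | bot => intro w _; rfl
  | neg a ih => intro w hw; simp only [code] at hφ; simp only [sat, ih (by omega) w hw]
  | box a ih =>
    intro w hw
    simp only [code] at hφ
    simp only [sat]
    have h0 := fr_le hjm w
    exact forall_congr' fun y => imp_congr_right fun hy => ih (by omega) y (by omega)
  | and a c iha ihc =>
    intro w hw
    simp only [code] at hφ
    have := add_le_six_pair a.code c.code
    simp only [sat, iha (by omega) w hw, ihc (by omega) w hw]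
  | or a c iha ihc =>
    intro w hw
    simp only [code] at hφ
    have := add_le_six_pair a.code c.code
    simp only [sat, iha (by omega) w hw, ihc (by omega) w hw]
  | imp a c iha ihc =>
    intro w hw
    simp only [code] at hφ
    have := add_le_six_pair a.code c.code
    simp only [sat, iha (by omega) w hw, ihc (by omega) w hw]

open Classical in
/-- evaluation on codes; the parameters are `(j, m - j, v)` -/
noncomputable def ev (a : ℕ × ℕ × ℕ) (k : ℕ) : Bool :=
  decide (sat (fr a.1 (a.1 + a.2.1)) (fun p y => Bit a.2.2 (p * (a.1 + a.2.1 + 3) + y))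
    (decode (k / (a.1 + a.2.1 + 3))) (k % (a.1 + a.2.1 + 3)))

lemma ev_iff (j d v : ℕ) (φ : Formula) (w : ℕ) (hw : w ≤ j + d + 2) :
    ev (j, d, v) (φ.code * (j + d + 3) + w) = true ↔
      sat (fr j (j + d)) (fun p y => Bit v (p * (j + d + 3) + y)) φ w := by
  unfold ev
  have h1 : (φ.code * (j + d + 3) + w) / (j + d + 3) = φ.code := by
    rw [Nat.add_comm, Nat.add_mul_div_right _ _ (by omega), Nat.div_eq_of_lt (by omega)]; simp
  have h2 : (φ.code * (j + d + 3) + w) % (j + d + 3) = w := by
    rw [Nat.add_comm, Nat.add_mul_mod_self_right, Nat.mod_eq_of_lt (by omega)]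
  simp only [h1, h2, decode_code, decide_eq_true_eq]

lemma valid_iff (j d : ℕ) (φ : Formula) : Valid j (j + d) φ ↔
    ∀ v, v < 2 ^ ((φ.code + 1) * (j + d + 3)) → ∀ w, w < j + d + 3 →
      ev (j, d, v) (φ.code * (j + d + 3) + w) = true := by
  constructor
  · intro h v _ w hw
    rw [ev_iff j d v φ w (by omega)]
    exact h _ w (by omega)
  · intro h V w hw
    obtain ⟨v, hv, hv'⟩ := exists_bits ((φ.code + 1) * (j + d + 3))
      (fun k => V (k / (j + d + 3)) (k % (j + d + 3)))
    have := h v hv w (by omega)
    rw [ev_iff j d v φ w hw] at this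
    refine (sat_congr (by omega) _ _ φ.code ?_ φ le_rfl w hw).1 this
    intro p y hp hy
    rw [hv' _ (by nlinarith)]
    have h1 : (p * (j + d + 3) + y) / (j + d + 3) = p := by
      rw [Nat.add_comm, Nat.add_mul_div_right _ _ (by omega), Nat.div_eq_of_lt (by omega)]; simp
    have h2 : (p * (j + d + 3) + y) % (j + d + 3) = y := by
      rw [Nat.add_comm, Nat.add_mul_mod_self_right, Nat.mod_eq_of_lt (by omega)]
    rw [h1, h2]

/-- one step of the evaluation -/
def Step (j d v W c w : ℕ) (L : List Bool) : Prop :=
  c = 0 ∨ (2 ≤ c ∧
    (((c - 2) % 6 = 0 ∧ Bit v ((c - 2) / 6 * W + w)) ∨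
     ((c - 2) % 6 = 1 ∧ ¬ L.getD ((c - 2) / 6 * W + w) false = true) ∨
     ((c - 2) % 6 = 2 ∧ ∀ y, y < fr j (j + d) w → L.getD ((c - 2) / 6 * W + y) false = true) ∨
     ((c - 2) % 6 = 3 ∧ L.getD (((c - 2) / 6).unpair.1 * W + w) false = true ∧
        L.getD (((c - 2) / 6).unpair.2 * W + w) false = true) ∨
     ((c - 2) % 6 = 4 ∧ (L.getD (((c - 2) / 6).unpair.1 * W + w) false = true ∨
        L.getD (((c - 2) / 6).unpair.2 * W + w) false = true)) ∨
     ((c - 2) % 6 = 5 ∧ (¬ L.getD (((c - 2) / 6).unpair.1 * W + w) false = true ∨
        L.getD (((c - 2) / 6).unpair.2 * W + w) false = true))))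

lemma step_iff (j d v : ℕ) (φ : Formula) (w : ℕ) (hw : w ≤ j + d + 2) :
    Step j d v (j + d + 3) φ.code w
      ((List.range (φ.code * (j + d + 3) + w)).map (ev (j, d, v))) ↔
      sat (fr j (j + d)) (fun p y => Bit v (p * (j + d + 3) + y)) φ w := by
  have key : ∀ (ψ : Formula) (y : ℕ), ψ.code < φ.code → y ≤ j + d + 2 →
      (((List.range (φ.code * (j + d + 3) + w)).map (ev (j, d, v))).getD
        (ψ.code * (j + d + 3) + y) false = true ↔
      sat (fr j (j + d)) (fun p y => Bit v (p * (j + d + 3) + y)) ψ y) := by
    intro ψ y h1 h2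
    have hlt : ψ.code * (j + d + 3) + y < φ.code * (j + d + 3) + w := by nlinarith
    rw [← ev_iff j d v ψ y h2, List.getD_eq_getElem?_getD, List.getElem?_map,
      List.getElem?_range hlt]
    simp
  unfold Step
  cases φ with
  | top => simp [code, sat]
  | bot => simp [code, sat]
  | var i =>
    have e1 : ((var i).code - 2) % 6 = 0 := by simp only [code]; omega
    have e2 : ((var i).code - 2) / 6 = i := by simp only [code]; omega
    have e3 : (var i).code ≠ 0 := by simp only [code]; omega
    have e4 : 2 ≤ (var i).code := by simp only [code]; omega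
    simp [e1, e2, e3, e4, sat]
  | neg a =>
    have e1 : ((neg a).code - 2) % 6 = 1 := by simp only [code]; omega
    have e2 : ((neg a).code - 2) / 6 = a.code := by simp only [code]; omega
    have e3 : (neg a).code ≠ 0 := by simp only [code]; omega
    have e4 : 2 ≤ (neg a).code := by simp only [code]; omega
    have k1 := key a w (by simp only [code]; omega) hw
    rw [e1, e2, k1]
    simp [e3, e4, sat]
  | box a =>
    have e1 : ((box a).code - 2) % 6 = 2 := by simp only [code]; omega
    have e2 : ((box a).code - 2) / 6 = a.code := by simp only [code]; omega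
    have e3 : (box a).code ≠ 0 := by simp only [code]; omega
    have e4 : 2 ≤ (box a).code := by simp only [code]; omega
    have h0 := fr_le (j := j) (m := j + d) (by omega) w
    have k1 : (∀ y, y < fr j (j + d) w →
        ((List.range ((box a).code * (j + d + 3) + w)).map (ev (j, d, v))).getD
          (a.code * (j + d + 3) + y) false = true) ↔
        sat (fr j (j + d)) (fun p y => Bit v (p * (j + d + 3) + y)) (box a) w :=
      forall_congr' fun y => imp_congr_right fun hy =>
        key a y (by simp only [code]; omega) (by omega)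
    rw [e1, e2, k1]
    simp [e3, e4]
  | and a c =>
    have e1 : ((Formula.and a c).code - 2) % 6 = 3 := by simp only [code]; omega
    have e2 : ((Formula.and a c).code - 2) / 6 = Nat.pair a.code c.code := by
      simp only [code]; omega
    have e3 : (Formula.and a c).code ≠ 0 := by simp only [code]; omega
    have e4 : 2 ≤ (Formula.and a c).code := by simp only [code]; omega
    have := add_le_six_pair a.code c.code
    have k1 := key a w (by simp only [code]; omega) hw
    have k2 := key c w (by simp only [code]; omega) hw
    rw [e1, e2, Nat.unpair_pair, k1, k2]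
    simp [e3, e4, sat]
  | or a c =>
    have e1 : ((Formula.or a c).code - 2) % 6 = 4 := by simp only [code]; omega
    have e2 : ((Formula.or a c).code - 2) / 6 = Nat.pair a.code c.code := by
      simp only [code]; omega
    have e3 : (Formula.or a c).code ≠ 0 := by simp only [code]; omega
    have e4 : 2 ≤ (Formula.or a c).code := by simp only [code]; omega
    have := add_le_six_pair a.code c.code
    have k1 := key a w (by simp only [code]; omega) hw
    have k2 := key c w (by simp only [code]; omega) hw
    rw [e1, e2, Nat.unpair_pair, k1, k2]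
    simp [e3, e4, sat]
  | imp a c =>
    have e1 : ((Formula.imp a c).code - 2) % 6 = 5 := by simp only [code]; omega
    have e2 : ((Formula.imp a c).code - 2) / 6 = Nat.pair a.code c.code := by
      simp only [code]; omega
    have e3 : (Formula.imp a c).code ≠ 0 := by simp only [code]; omega
    have e4 : 2 ≤ (Formula.imp a c).code := by simp only [code]; omega
    have := add_le_six_pair a.code c.code
    have k1 := key a w (by simp only [code]; omega) hw
    have k2 := key c w (by simp only [code]; omega) hw
    rw [e1, e2, Nat.unpair_pair, k1, k2]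
    simp only [e3, e4, sat]
    simp [imp_iff_not_or]

end Pool.Agent.H274Z.Modal
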