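import Mathlib
import Pool.Agent.H274Z.Modal.Comp

set_option autoImplicit false

namespace Pool.Agent.H274Z.Modal

open Formula Primrec

lemma forall_lt' {β : Type} [Primcodable β] {R : ℕ → β → Prop} (hR : PrimrecRel R) {f : β → ℕ}
    (hf : Primrec f) : PrimrecPred fun b => ∀ x, x < f b → R x b :=
  (hR.forall_mem_list.comp (list_range.comp hf) Primrec.id).of_eq (by simp)

lemma prim_pow : Primrec₂ ((· ^ ·) : ℕ → ℕ → ℕ) := Primrec₂.unpaired'.1 Nat.Primrec.pow

lemma prim_bit : PrimrecRel Bit := by
  unfold Bit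
  exact Primrec.eq.comp (nat_mod.comp (nat_div.comp fst (prim_pow.comp (const 2) snd)) (const 2))
    (const 1)

lemma prim_fr : Primrec fun a : ℕ × ℕ × ℕ => fr a.1 a.2.1 a.2.2 := by
  unfold fr
  exact Primrec.ite (Primrec.eq.comp (snd.comp snd) (succ.comp (fst.comp snd))) fst (snd.comp snd)

lemma prim_step {β : Type} [Primcodable β] {j d v W c w : β → ℕ} {L : β → List Bool}
    (hj : Primrec j) (hd : Primrec d) (hv : Primrec v) (hW : Primrec W) (hc : Primrec c)
    (hw : Primrec w) (hL : Primrec L) :
    PrimrecPred fun b => Step (j b) (d b) (v b) (W b) (c b) (w b) (L b) := by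
  have hr : Primrec fun b => (c b - 2) % 6 :=
    nat_mod.comp (nat_sub.comp hc (const 2)) (const 6)
  have hq : Primrec fun b => (c b - 2) / 6 :=
    nat_div.comp (nat_sub.comp hc (const 2)) (const 6)
  have hq1 : Primrec fun b => ((c b - 2) / 6).unpair.1 := fst.comp (unpair.comp hq)
  have hq2 : Primrec fun b => ((c b - 2) / 6).unpair.2 := snd.comp (unpair.comp hq)
  have hT : ∀ {q : β → ℕ}, Primrec q →
      PrimrecPred fun b => (L b).getD (q b * W b + w b) false = true := fun hq' =>
    Primrec.eq.comp ((list_getD false).comp hL (nat_add.comp (nat_mul.comp hq' hW) hw))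
      (const true)
  have hR : ∀ i : ℕ, PrimrecPred fun b => (c b - 2) % 6 = i := fun i =>
    Primrec.eq.comp hr (const i)
  have hB : PrimrecPred fun b => ∀ y, y < fr (j b) (j b + d b) (w b) →
      (L b).getD ((c b - 2) / 6 * W b + y) false = true := by
    apply forall_lt' (R := fun y b => (L b).getD ((c b - 2) / 6 * W b + y) false = true)
    · exact Primrec.eq.comp ((list_getD false).comp (hL.comp snd)
        (nat_add.comp (nat_mul.comp (hq.comp snd) (hW.comp snd)) fst)) (const true)
    · exact prim_fr.comp (hj.pair ((nat_add.comp hj hd).pair hw))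
  unfold Step
  refine (Primrec.eq.comp hc (const 0)).or ((nat_le.comp (const 2) hc).and ?_)
  refine ((hR 0).and (prim_bit.comp hv (nat_add.comp (nat_mul.comp hq hW) hw))).or ?_
  refine ((hR 1).and (hT hq).not).or ?_
  refine ((hR 2).and hB).or ?_
  refine ((hR 3).and ((hT hq1).and (hT hq2))).or ?_
  refine ((hR 4).and ((hT hq1).or (hT hq2))).or ?_
  exact (hR 5).and ((hT hq1).not.or (hT hq2))

lemma prim_ev : Primrec₂ ev := by
  classical
  have hW : Primrec fun b : (ℕ × ℕ × ℕ) × List Bool => b.1.1 + b.1.2.1 + 3 :=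
    nat_add.comp (nat_add.comp (fst.comp fst) (fst.comp (snd.comp fst))) (const 3)
  have hP : PrimrecPred fun b : (ℕ × ℕ × ℕ) × List Bool =>
      Step b.1.1 b.1.2.1 b.1.2.2 (b.1.1 + b.1.2.1 + 3) (b.2.length / (b.1.1 + b.1.2.1 + 3))
        (b.2.length % (b.1.1 + b.1.2.1 + 3)) b.2 :=
    prim_step (fst.comp fst) (fst.comp (snd.comp fst)) (snd.comp (snd.comp fst)) hW
      (nat_div.comp (list_length.comp snd) hW) (nat_mod.comp (list_length.comp snd) hW) snd
  refine nat_strong_rec ev (g := fun a L => some (decide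
    (Step a.1 a.2.1 a.2.2 (a.1 + a.2.1 + 3) (L.length / (a.1 + a.2.1 + 3))
        (L.length % (a.1 + a.2.1 + 3)) L))) (option_some.comp hP.decide) ?_
  rintro ⟨j, d, v⟩ n
  simp only [List.length_map, List.length_range, Option.some.injEq]
  have hw : n % (j + d + 3) < j + d + 3 := Nat.mod_lt _ (by omega)
  have hn : (decode (n / (j + d + 3))).code * (j + d + 3) + n % (j + d + 3) = n := by
    rw [code_decode, Nat.div_add_mod']
  have h1 := step_iff j d v (decode (n / (j + d + 3))) (n % (j + d + 3)) (by omega)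
  have h2 := ev_iff j d v (decode (n / (j + d + 3))) (n % (j + d + 3)) (by omega)
  rw [hn] at h1 h2
  rw [code_decode] at h1
  rw [Bool.eq_iff_iff, decide_eq_true_eq, h1, h2]

lemma prim_running : PrimrecRel Running := by
  unfold Running
  exact Primrec.eq.comp (Nat.Partrec.Code.primrec_evaln.comp
    ((snd.pair ((Primrec.ofNat Nat.Partrec.Code).comp fst)).pair (const 0))) (const none)

lemma prim_cls : PrimrecRel Cls := by
  unfold Cls
  exact (prim_running.comp (nat_div.comp fst (const 2)) snd).or
    (nat_le.comp snd (nat_div.comp fst (const 2)))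

/-- validity on codes -/
def ValidC (n j d : ℕ) : Prop :=
  ∀ v, v < 2 ^ ((n + 1) * (j + d + 3)) → ∀ w, w < j + d + 3 →
    ev (j, d, v) (n * (j + d + 3) + w) = true

lemma prim_validC : PrimrecPred fun a : ℕ × ℕ × ℕ => ValidC a.1 a.2.1 a.2.2 := by
  unfold ValidC
  have hW : Primrec fun a : ℕ × ℕ × ℕ => a.2.1 + a.2.2 + 3 :=
    nat_add.comp (nat_add.comp (fst.comp snd) (snd.comp snd)) (const 3)
  apply forall_lt' (R := fun v (a : ℕ × ℕ × ℕ) => ∀ w, w < a.2.1 + a.2.2 + 3 →
    ev (a.2.1, a.2.2, v) (a.1 * (a.2.1 + a.2.2 + 3) + w) = true)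
  · apply forall_lt' (β := ℕ × ℕ × ℕ × ℕ) (R := fun w (b : ℕ × ℕ × ℕ × ℕ) =>
      ev (b.2.2.1, b.2.2.2, b.1) (b.2.1 * (b.2.2.1 + b.2.2.2 + 3) + w) = true)
    · refine Primrec.eq.comp (prim_ev.comp ?_ ?_) (const true)
      · exact (fst.comp (snd.comp (snd.comp snd))).pair
          ((snd.comp (snd.comp (snd.comp snd))).pair (fst.comp snd))
      · exact nat_add.comp (nat_mul.comp (fst.comp (snd.comp snd)) (hW.comp (snd.comp snd))) fst
    · exact hW.comp snd
  · exact prim_pow.comp (const 2) (nat_mul.comp (succ.comp fst) hW)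

theorem theLogic_decidable : DecidableLogic theLogic := by
  have h : PrimrecPred fun n : ℕ => ∀ j, j < 2 * n + 6 → ∀ t, t < n + 2 →
      (¬ Cls j t ∨ ValidC n j (2 * t)) := by
    apply forall_lt' (R := fun j n => ∀ t, t < n + 2 → (¬ Cls j t ∨ ValidC n j (2 * t)))
    · apply forall_lt' (β := ℕ × ℕ)
        (R := fun t (b : ℕ × ℕ) => ¬ Cls b.1 t ∨ ValidC b.2 b.1 (2 * t))
      · refine (prim_cls.comp (fst.comp snd) fst).not.or ?_
        exact prim_validC.comp ((snd.comp snd).pair
          ((fst.comp snd).pair (nat_mul.comp (const 2) fst)))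
      · exact nat_add.comp snd (const 2)
    · exact nat_add.comp (nat_mul.comp (const 2) Primrec.id) (const 6)
  refine h.computablePred.of_eq fun n => ?_
  constructor
  · intro H
    refine ⟨decode n, code_decode n, ?_⟩
    rw [mem_theLogic_iff, code_decode]
    intro j hj t ht hc
    rw [valid_iff, code_decode]
    exact (H j hj t ht).resolve_left (not_not.2 hc)
  · rintro ⟨φ, rfl, hφ⟩ j hj t ht
    rw [← imp_iff_not_or]
    intro hc
    exact (valid_iff j (2 * t) φ).1 (hφ j t hc)

lemma prim_boxes : Primrec fun k => (boxes k).code := by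
  have : Primrec fun k : ℕ => (fun a : ℕ => 6 * a + 4)^[k] 1 :=
    nat_iterate Primrec.id (const 1)
      (nat_add.comp (nat_mul.comp (const 6) snd) (const 4)).to₂
  refine this.of_eq fun k => ?_
  induction k with
  | zero => rfl
  | succ k ih => rw [Function.iterate_succ_apply', ih]; rfl

lemma prim_neg {f : ℕ → Formula} (hf : Primrec fun n => (f n).code) :
    Primrec fun n => (neg (f n)).code :=
  nat_add.comp (nat_mul.comp (const 6) hf) (const 3)

lemma prim_box {f : ℕ → Formula} (hf : Primrec fun n => (f n).code) :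
    Primrec fun n => (box (f n)).code :=
  nat_add.comp (nat_mul.comp (const 6) hf) (const 4)

lemma prim_and {f g : ℕ → Formula} (hf : Primrec fun n => (f n).code)
    (hg : Primrec fun n => (g n).code) : Primrec fun n => (Formula.and (f n) (g n)).code :=
  nat_add.comp (nat_mul.comp (const 6) (Primrec₂.natPair.comp hf hg)) (const 5)

lemma prim_two (p : ℕ) : Primrec fun k => (two k p).code := by
  have hd : Primrec fun k => (depthF k).code :=
    prim_and (prim_boxes.comp succ) (prim_neg prim_boxes)
  unfold two dia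
  exact prim_and (prim_neg (prim_box (prim_neg (prim_and hd (const _)))))
    (prim_neg (prim_box (prim_neg (prim_and hd (const _)))))

theorem theLogic_not_iep : ¬ DecidableIEP theLogic := by
  intro h
  have h1 : Primrec fun n => (phiF n).code :=
    (prim_two 0).comp (nat_mul.comp (const 2) Primrec.id)
  have h2 : Primrec fun n => (psiF n).code :=
    prim_neg ((prim_two 1).comp (succ.comp (nat_mul.comp (const 2) Primrec.id)))
  have h3 : Computable fun c : Nat.Partrec.Code =>
      ((phiF (Encodable.encode c)).code, (psiF (Encodable.encode c)).code) :=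
    ((h1.comp Primrec.encode).pair (h2.comp Primrec.encode)).to_comp
  obtain ⟨inst, h⟩ := h
  classical
  apply ComputablePred.halting_problem 0
  refine (Computable.computablePred (h.comp h3)).of_eq fun c => ?_
  have e : (∃ φ ψ : Formula, φ.code = (phiF (Encodable.encode c)).code ∧
      ψ.code = (psiF (Encodable.encode c)).code ∧ HasInterpolant theLogic φ ψ) ↔
      HasInterpolant theLogic (phiF (Encodable.encode c)) (psiF (Encodable.encode c)) := by
    constructor
    · rintro ⟨φ, ψ, e1, e2, H⟩
      rwa [code_injective _ _ e1, code_injective _ _ e2] at H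
    · intro H
      exact ⟨_, _, rfl, rfl, H⟩
  simp only []
  rw [e, hasInterpolant_iff]
  unfold Running
  rw [Denumerable.ofNat_encode, Part.dom_iff_mem]
  constructor
  · rintro ⟨t, ht⟩
    obtain ⟨x, hx⟩ := Option.ne_none_iff_exists'.1 ht
    exact ⟨x, Nat.Partrec.Code.evaln_sound (Option.mem_def.2 hx)⟩
  · rintro ⟨x, hx⟩
    obtain ⟨t, ht⟩ := Nat.Partrec.Code.evaln_complete.1 hx
    exact ⟨t, by rw [Option.mem_def.1 ht]; simp⟩

theorem main : ∃ L : Set Formula, IsNormalLogic L ∧ logicGL ⊆ L ∧ DecidableLogic L ∧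
    ¬ DecidableIEP L :=
  ⟨theLogic, theLogic_normal, fun _ h => h _ theLogic_normal theLogic_loeb, theLogic_decidable,
    theLogic_not_iep⟩

end Pool.Agent.H274Z.Modal
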